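import Mathlib

open MeasureTheory Finset Function
open scoped ENNReal

namespace Pool.Agent.H.MP_adc20b_pr

lemma maxi {S Ω : Type} [Countable S] [MeasurableSpace S] [MeasurableSingletonClass S] [MeasurableSpace Ω]
    (P : Measure Ω) (K : S → Measure S) (Z : ℕ → Ω → S) (f : S → ℝ≥0∞) (hf : ∀ z, ∫⁻ w, f w ∂K z ≤ f z)
    (h : ∀ m (z : ℕ → S), P {ω | ∀ k ≤ m + 1, Z k ω = z k} = P {ω | ∀ k ≤ m, Z k ω = z k} * K (z m) {z (m + 1)})
    (N : ℝ≥0∞) (n : ℕ) : ∀ m (z : ℕ → S), N * P {ω | (∀ k ≤ m, Z k ω = z k) ∧ ∃ k ≤ n, N ≤ f (Z (m + k) ω)} ≤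
      P {ω | ∀ k ≤ m, Z k ω = z k} * f (z m) := by
  have h0 : ∀ m (z : ℕ → S) (A : Ω → Prop), N ≤ f (z m) → N * P {ω | (∀ k ≤ m, Z k ω = z k) ∧ A ω} ≤
      P {ω | ∀ k ≤ m, Z k ω = z k} * f (z m) := fun m z A hN => by
    rw [mul_comm]
    exact mul_le_mul' (measure_mono fun ω hω => hω.1) hN
  induction n with
  | zero =>
    intro m z
    by_cases hN : N ≤ f (z m)
    · exact h0 m z _ hN
    · rw [show {ω | (∀ k ≤ m, Z k ω = z k) ∧ ∃ k ≤ 0, N ≤ f (Z (m + k) ω)} = ∅ from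
        Set.eq_empty_of_forall_notMem fun ω ⟨h1, k, hk, h2⟩ => hN (by
          rwa [Nat.le_zero.1 hk, add_zero, h1 m le_rfl] at h2)]
      simp
  | succ n ih =>
    intro m z
    by_cases hN : N ≤ f (z m)
    · exact h0 m z _ hN
    have h1 : {ω | (∀ k ≤ m, Z k ω = z k) ∧ ∃ k ≤ n + 1, N ≤ f (Z (m + k) ω)} ⊆
        ⋃ w, {ω | (∀ k ≤ m + 1, Z k ω = update z (m + 1) w k) ∧ ∃ k ≤ n, N ≤ f (Z (m + 1 + k) ω)} := by
      rintro ω ⟨h1, k, hk, h2⟩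
      refine Set.mem_iUnion.2 ⟨Z (m + 1) ω, fun j hj => ?_, ?_⟩
      · by_cases h3 : j = m + 1
        · simp [h3]
        · rw [update_of_ne h3, h1 j (by omega)]
      · rcases k with _ | k
        · exact absurd (by rwa [add_zero, h1 m le_rfl] at h2) hN
        · exact ⟨k, by omega, by rwa [add_right_comm]⟩
    refine (mul_le_mul_right ((measure_mono h1).trans (measure_iUnion_le _)) N).trans ?_
    rw [← ENNReal.tsum_mul_left]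
    refine (ENNReal.tsum_le_tsum fun w => ih (m + 1) _).trans (le_trans (le_of_eq ?_) (mul_le_mul_right (hf (z m)) _))
    rw [lintegral_countable', ← ENNReal.tsum_mul_left]
    refine tsum_congr fun w => ?_
    have h2 : {ω | ∀ k ≤ m, Z k ω = update z (m + 1) w k} = {ω | ∀ k ≤ m, Z k ω = z k} :=
      Set.ext fun ω => forall₂_congr fun k hk => by rw [update_of_ne (by omega)]
    rw [h, h2, update_self, update_of_ne (by omega)]
    ring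

lemma bdd {S Ω : Type} [Countable S] [MeasurableSpace S] [MeasurableSingletonClass S] [MeasurableSpace Ω]
    (P : Measure Ω) [IsProbabilityMeasure P] (K : S → Measure S) (Z : ℕ → Ω → S) (f : S → ℝ) (hf0 : ∀ z, 0 ≤ f z)
    (hf : ∀ z, ∫⁻ w, ENNReal.ofReal (f w) ∂K z ≤ ENNReal.ofReal (f z)) (z₀ : S) (hz : ∀ ω, Z 0 ω = z₀)
    (h : ∀ m (z : ℕ → S), P {ω | ∀ k ≤ m + 1, Z k ω = z k} = P {ω | ∀ k ≤ m, Z k ω = z k} * K (z m) {z (m + 1)}) :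
    ∀ᵐ ω ∂P, ∃ N : ℝ, ∀ k, f (Z k ω) ≤ N := by
  rw [ae_iff]
  push Not
  have h1 : ∀ N : ℕ, (N : ℝ≥0∞) * P {ω | ∀ N : ℝ, ∃ k, N < f (Z k ω)} ≤ ENNReal.ofReal (f z₀) := by
    intro N
    let A : ℕ → Set Ω := fun n => {ω | (∀ k ≤ 0, Z k ω = z₀) ∧ ∃ k ≤ n, (N : ℝ≥0∞) ≤ ENNReal.ofReal (f (Z (0 + k) ω))}
    have h2 : {ω | ∀ N : ℝ, ∃ k, N < f (Z k ω)} ⊆ ⋃ n, A n := fun ω hω => by
      obtain ⟨k, hk⟩ := hω N
      refine Set.mem_iUnion.2 ⟨k, fun j hj => Nat.le_zero.1 hj ▸ hz ω, k, le_rfl, ?_⟩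
      rw [zero_add, ← ENNReal.ofReal_natCast]
      exact ENNReal.ofReal_le_ofReal hk.le
    have h3 : Monotone A := fun a b hab ω ⟨h1, k, hk, h2⟩ => ⟨h1, k, hk.trans hab, h2⟩
    refine (mul_le_mul_right (measure_mono h2) _).trans ?_
    rw [h3.measure_iUnion, ENNReal.mul_iSup]
    refine iSup_le fun n => (maxi P K Z _ hf h N n 0 fun _ => z₀).trans ?_
    exact (mul_le_mul_left prob_le_one _).trans (one_mul _).le
  by_contra hc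
  have := iSup_le h1
  rw [← ENNReal.iSup_mul, ENNReal.iSup_natCast, ENNReal.top_mul hc] at this
  exact ENNReal.ofReal_ne_top (top_le_iff.1 this)

abbrev Rx (d : ℕ) : Type := (Fin d → ℕ) × (Fin d → ℕ)

def rate {d : ℕ} (c : ℝ) (r : Rx d) (x : Fin d → ℕ) : ℝ := c * ∏ m, (x m).descFactorial (r.1 m)

def MM {d : ℕ} (R : Finset (Rx d)) (c : Rx d → ℝ) (m l : Fin d) : ℝ :=
  ∑ r ∈ R with r.1 = Pi.single l 1, c r * ((r.2 m : ℝ) - r.1 m)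

noncomputable def jump {n d : ℕ} (R : Fin n → Finset (Rx d)) (c : Fin n → Rx d → ℝ) (Q : Fin n → Fin n → ℝ) (κ : ℝ)
    (z : (Fin d → ℕ) × Fin n) : Measure ((Fin d → ℕ) × Fin n) :=
  ∑ r ∈ R z.2, ENNReal.ofReal (rate (c z.2 r) r z.1) • Measure.dirac (z.1 + r.2 - r.1, z.2) +
    ∑ j ∈ univ.erase z.2, ENNReal.ofReal (κ * Q z.2 j) • Measure.dirac (z.1, j)

lemma bern (x : ℕ) (δ θ : ℝ) (hδ : -1 ≤ δ) (h0 : 0 ≤ θ) (h1 : θ ≤ 1) (hx : x ≠ 0) :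
    x * (x + δ) ^ θ ≤ x * x ^ θ + θ * δ * x ^ θ := by
  have h2 : (1 : ℝ) ≤ x := by exact_mod_cast Nat.one_le_iff_ne_zero.2 hx
  have h3 : -1 ≤ δ / x := by
    rw [le_div_iff₀ (by linarith)]
    linarith
  have h4 := rpow_one_add_le_one_add_mul_self h3 h0 h1
  rw [show x + δ = x * (1 + δ / x) by field_simp, Real.mul_rpow (by linarith) (by linarith)]
  have h5 : (0 : ℝ) ≤ x * x ^ θ := by positivity
  calc (x : ℝ) * (x ^ θ * (1 + δ / x) ^ θ) = x * x ^ θ * (1 + δ / x) ^ θ := by ring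
    _ ≤ x * x ^ θ * (1 + θ * (δ / x)) := mul_le_mul_of_nonneg_left h4 h5
    _ = _ := by field_simp

lemma up (x : ℕ) (θ : ℝ) (h0 : 0 < θ) (h1 : θ ≤ 1) : x * ((x + 1 : ℕ) : ℝ) ^ θ ≤ x * x ^ θ + θ * x ^ θ := by
  rcases eq_or_ne x 0 with rfl | hx
  · simp; positivity
  · simpa using bern x 1 θ (by norm_num) h0.le h1 hx

lemma dn (x : ℕ) (θ : ℝ) (h0 : 0 < θ) (h1 : θ ≤ 1) : x * ((x - 1 : ℕ) : ℝ) ^ θ ≤ x * x ^ θ - θ * x ^ θ := by
  rcases eq_or_ne x 0 with rfl | hx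
  · simp [h0.ne']
  · rw [Nat.cast_sub (Nat.one_le_iff_ne_zero.2 hx)]
    simpa [sub_eq_add_neg] using bern x (-1) θ le_rfl h0.le h1 hx

lemma md (x y : ℕ) (θ : ℝ) (h0 : 0 < θ) (h1 : θ ≤ 1) :
    y * (((x + 1 : ℕ) : ℝ) ^ θ + (y - 1 : ℕ)) ≤ y * (x ^ θ + y) := by
  rcases eq_or_ne y 0 with rfl | hy
  · simp
  · rw [Nat.cast_sub (Nat.one_le_iff_ne_zero.2 hy)]
    have := Real.rpow_add_le_add_rpow (Nat.cast_nonneg x : (0 : ℝ) ≤ x) zero_le_one h0.le h1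
    rw [Real.one_rpow] at this
    push_cast
    exact mul_le_mul_of_nonneg_left (by linarith) (Nat.cast_nonneg y)

def R0 : Fin 2 → Finset (Rx 3) :=
  ![{(![1, 0, 0], ![2, 0, 0]), (![0, 1, 0], ![1, 0, 0]), (![0, 0, 1], ![0, 0, 0])},
    {(![0, 0, 1], ![0, 0, 2]), (![0, 1, 0], ![0, 0, 1]), (![1, 0, 0], ![0, 0, 0])}]

def c0 : Fin 2 → Rx 3 → ℝ := fun _ r => if r.2 = ![0, 0, 0] then 2 else 1

theorem main : ∃ (n d : ℕ) (R : Fin n → Finset (Rx d)) (c : Fin n → Rx d → ℝ) (Q : Fin n → Fin n → ℝ)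
    (v : Fin n → Fin d → ℝ), (∀ i, ∀ r ∈ R i, 0 < c i r ∧ (r.1 = 0 ∨ ∃ l, r.1 = Pi.single l 1)) ∧
    (∀ i j, i ≠ j → 0 < Q i j) ∧ (∀ i, ∑ j, Q i j = 0) ∧ 2 ≤ n ∧
    (∀ i m, 0 ≤ v i m ∧ (v i m ≠ 0 → 0 < ∑ l, v i l * MM (R i) (c i) l m)) ∧ (∃ s, ∀ j, v j s ≠ 0) ∧
    ∀ κ ∈ Set.Ioc (0 : ℝ) 2, ∀ (z₀ : (Fin d → ℕ) × Fin n) (Ω : Type) (_ : MeasurableSpace Ω) (P : Measure Ω)
      (Z : ℕ → Ω → (Fin d → ℕ) × Fin n), IsProbabilityMeasure P → (∀ ω, Z 0 ω = z₀) →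
      (∀ m (z : ℕ → (Fin d → ℕ) × Fin n), P {ω | ∀ k ≤ m + 1, Z k ω = z k} = P {ω | ∀ k ≤ m, Z k ω = z k} *
        (jump R c Q κ (z m) {z (m + 1)} / jump R c Q κ (z m) Set.univ)) →
      ∀ᵐ ω ∂P, ∃ B, ∀ k, ∑ m, (Z k ω).1 m ≤ B := by
  refine ⟨2, 3, R0, c0, fun i j => if i = j then -1 else 1, ![![2, 1, 0], ![0, 1, 2]], ?_, fun i j h => by simp [h],
    fun i => by fin_cases i <;> simp, le_rfl, ?_, ⟨1, fun j => by fin_cases j <;> simp⟩, ?_⟩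
  · intro i r hr
    refine ⟨by unfold c0; split_ifs <;> norm_num, Or.inr ?_⟩
    revert i r
    decide
  · have e0 : (Pi.single 0 1 : Fin 3 → ℕ) = ![1, 0, 0] := by decide
    have e1 : (Pi.single 1 1 : Fin 3 → ℕ) = ![0, 1, 0] := by decide
    have e2 : (Pi.single 2 1 : Fin 3 → ℕ) = ![0, 0, 1] := by decide
    intro i m
    fin_cases i <;> fin_cases m <;> simp [MM, R0, c0, sum_filter, Fin.sum_univ_three, e0, e1, e2]
  intro κ hκ z₀ Ω _ P Z _ hz h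
  have h0 : 0 < κ / 2 := by linarith [hκ.1]
  have h1 : κ / 2 ≤ 1 := by linarith [hκ.2]
  let f : (Fin 3 → ℕ) × Fin 2 → ℝ := fun z =>
    ![2, 1] z.2 * (z.1 0 : ℝ) ^ (κ / 2) + 2 * z.1 1 + ![1, 2] z.2 * (z.1 2 : ℝ) ^ (κ / 2)
  have f0 : ∀ z, 0 ≤ f z := fun ⟨x, i⟩ => by fin_cases i <;> simp [f] <;> positivity
  have key := bdd P (fun z => (jump R0 c0 (fun i j => if i = j then -1 else 1) κ z Set.univ)⁻¹ •
    jump R0 c0 (fun i j => if i = j then -1 else 1) κ z) Z f f0 ?_ z₀ hz fun m z => by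
      rw [h, Measure.smul_apply, smul_eq_mul, ENNReal.div_eq_inv_mul]
  · filter_upwards [key] with ω ⟨N, hN⟩
    refine ⟨⌈N ^ (κ / 2)⁻¹⌉₊ + ⌈N⌉₊ + ⌈N ^ (κ / 2)⁻¹⌉₊, fun k => ?_⟩
    have e := hN k
    generalize Z k ω = z at e
    obtain ⟨x, i⟩ := z
    have a0 : (0 : ℝ) ≤ (x 0 : ℝ) ^ (κ / 2) := by positivity
    have a1 : (0 : ℝ) ≤ x 1 := by positivity
    have a2 : (0 : ℝ) ≤ (x 2 : ℝ) ^ (κ / 2) := by positivity
    have b : (x 0 : ℝ) ^ (κ / 2) ≤ N ∧ (x 1 : ℝ) ≤ N ∧ (x 2 : ℝ) ^ (κ / 2) ≤ N := by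
      fin_cases i <;> simp [f] at e <;> refine ⟨?_, ?_, ?_⟩ <;> linarith
    have b' : ∀ y : ℕ, (y : ℝ) ^ (κ / 2) ≤ N → y ≤ ⌈N ^ (κ / 2)⁻¹⌉₊ := fun y hy => by
      have := (Real.le_rpow_inv_iff_of_pos (by positivity) (a0.trans b.1) h0).2 hy
      exact_mod_cast this.trans (Nat.le_ceil _)
    rw [Fin.sum_univ_three]
    exact add_le_add (add_le_add (b' _ b.1) (by exact_mod_cast b.2.1.trans (Nat.le_ceil _))) (b' _ b.2.2)
  rintro ⟨x, i⟩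
  rw [lintegral_smul_measure, smul_eq_mul, ← ENNReal.div_eq_inv_mul]
  refine ENNReal.div_le_of_le_mul ?_
  have hr : ∀ r, 0 ≤ rate (c0 i r) r x := fun r => by unfold rate c0; split_ifs <;> positivity
  have hq : ∀ j ∈ univ.erase i, 0 ≤ κ * if i = j then -1 else 1 := fun j hj => by
    rw [if_neg (ne_of_mem_erase hj).symm, mul_one]; exact hκ.1.le
  simp only [jump, lintegral_add_measure, lintegral_finsetSum_measure, lintegral_smul_measure, lintegral_dirac,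
    smul_eq_mul, Measure.add_apply, Measure.finsetSum_apply, Measure.smul_apply, measure_univ, mul_one]
  rw [sum_congr rfl fun r _ => (ENNReal.ofReal_mul (hr r)).symm, sum_congr rfl fun j hj => (ENNReal.ofReal_mul (hq j hj)).symm,
    ← ENNReal.ofReal_sum_of_nonneg fun r _ => mul_nonneg (hr r) (f0 _),
    ← ENNReal.ofReal_sum_of_nonneg fun j hj => mul_nonneg (hq j hj) (f0 _),
    ← ENNReal.ofReal_sum_of_nonneg fun r _ => hr r, ← ENNReal.ofReal_sum_of_nonneg hq,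
    ← ENNReal.ofReal_add (sum_nonneg fun r _ => mul_nonneg (hr r) (f0 _)) (sum_nonneg fun j hj => mul_nonneg (hq j hj) (f0 _)),
    ← ENNReal.ofReal_add (sum_nonneg fun r _ => hr r) (sum_nonneg hq), ← ENNReal.ofReal_mul (f0 _)]
  refine ENNReal.ofReal_le_ofReal ?_
  have u0 := up (x 0) _ h0 h1
  have u2 := up (x 2) _ h0 h1
  have d0 := dn (x 0) _ h0 h1
  have d2 := dn (x 2) _ h0 h1
  have m0 := md (x 0) (x 1) _ h0 h1
  have m2 := md (x 2) (x 1) _ h0 h1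
  have e0 : (univ : Finset (Fin 2)).erase 0 = {1} := by decide
  have e1 : (univ : Finset (Fin 2)).erase 1 = {0} := by decide
  fin_cases i
  · simp [R0, c0, rate, f, Fin.prod_univ_three, e0]
    push_cast at *
    nlinarith
  · simp [R0, c0, rate, f, Fin.prod_univ_three, e1]
    push_cast at *
    nlinarith

end Pool.Agent.H.MP_adc20b_pr
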